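import Mathlib
import Pool.Agent.Y114.RM.Stm3

/-!
# Regular monodromy: semisimplicity from the motivic Lie algebra (CONCL)
-/

set_option autoImplicit false

namespace Pool.Agent.Y41.RM

open Module Pool.Agent.Y114.RM Pool.Agent.Y114.TF Pool.Agent.H204R3.GP

section avg

variable {k : Type*} [Field k] [CharZero k] {W : Type*} [AddCommGroup W] [Module k W]
  {Γ : Type*} [Group Γ]

/-- Averaging a projection over a subgroup of finite index. -/
theorem exists_compl_of_commute (R : Representation k Γ W) (Δ Δ' : Subgroup Γ)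
    (hΔ' : Δ'.FiniteIndex) (U : Submodule k W) (hU : ∀ s ∈ Δ, ∀ u ∈ U, R s u ∈ U)
    (P : End k W) (hP : ∀ x, P x ∈ U) (hP' : ∀ u ∈ U, P u = u)
    (hc : ∀ s ∈ Δ', P * R s = R s * P) :
    ∃ U' : Submodule k W, (∀ s ∈ Δ, ∀ u ∈ U', R s u ∈ U') ∧ IsCompl U U' := by
  classical
  have : (Δ'.subgroupOf Δ).FiniteIndex := inferInstance
  have : Fintype (Δ ⧸ Δ'.subgroupOf Δ) := Subgroup.fintypeQuotientOfFiniteIndex
  have hinv : ∀ g : Γ, R g * R g⁻¹ = 1 := fun g => by rw [← map_mul, mul_inv_cancel, map_one]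
  have hinv' : ∀ g : Γ, R g⁻¹ * R g = 1 := fun g => by rw [← map_mul, inv_mul_cancel, map_one]
  let f : Δ → End k W := fun s => R (s : Γ) * P * R (s : Γ)⁻¹
  have hf : ∀ a b : Δ, (a⁻¹ * b) ∈ Δ'.subgroupOf Δ → f a = f b := by
    intro a b hab
    rw [Subgroup.mem_subgroupOf] at hab
    have h1 := hc _ hab
    have h2 : (b : Γ) = a * ((a⁻¹ * b : Δ) : Γ) := by
      rw [Subgroup.coe_mul, Subgroup.coe_inv, mul_inv_cancel_left]
    change R (a : Γ) * P * R (a : Γ)⁻¹ = R (b : Γ) * P * R (b : Γ)⁻¹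
    rw [h2, mul_inv_rev, map_mul, map_mul]
    set h := ((a⁻¹ * b : Δ) : Γ)
    have h3 : R (a : Γ) * R h * P * (R h⁻¹ * R (a : Γ)⁻¹) =
        R (a : Γ) * (R h * P) * R h⁻¹ * R (a : Γ)⁻¹ := by noncomm_ring
    rw [h3, ← h1]
    have h4 : R (a : Γ) * (P * R h) * R h⁻¹ * R (a : Γ)⁻¹ =
        R (a : Γ) * P * (R h * R h⁻¹) * R (a : Γ)⁻¹ := by noncomm_ring
    rw [h4, hinv, mul_one]
  let F : Δ ⧸ Δ'.subgroupOf Δ → End k W := Quotient.lift f (by
    intro a b hab
    exact hf a b (QuotientGroup.leftRel_apply.1 hab))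
  have hF : ∀ (t : Δ) (q : Δ ⧸ Δ'.subgroupOf Δ), R (t : Γ) * F q = F (t • q) * R (t : Γ) := by
    intro t q
    induction q using QuotientGroup.induction_on with
    | H s =>
      change R (t : Γ) * (R (s : Γ) * P * R (s : Γ)⁻¹) =
        R ((t * s : Δ) : Γ) * P * R ((t * s : Δ) : Γ)⁻¹ * R (t : Γ)
      rw [Subgroup.coe_mul, mul_inv_rev, map_mul, map_mul]
      have h1 : R (t : Γ) * R (s : Γ) * P * (R (s : Γ)⁻¹ * R (t : Γ)⁻¹) * R (t : Γ) =
        R (t : Γ) * R (s : Γ) * P * R (s : Γ)⁻¹ * (R (t : Γ)⁻¹ * R (t : Γ)) := by noncomm_ring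
      rw [h1, hinv', mul_one]
      noncomm_ring
  let S : End k W := ∑ q, F q
  have hS : ∀ t ∈ Δ, R t * S = S * R t := by
    intro t ht
    simp only [S]
    rw [Finset.mul_sum, Finset.sum_mul]
    rw [← Equiv.sum_comp (MulAction.toPerm (⟨t, ht⟩ : Δ)) (fun q => F q * R t)]
    exact Finset.sum_congr rfl fun q _ => hF ⟨t, ht⟩ q
  have hFU : ∀ q x, F q x ∈ U := by
    intro q x
    induction q using QuotientGroup.induction_on with
    | H s => exact hU _ s.2 _ (hP _)
  have hFU' : ∀ q, ∀ u ∈ U, F q u = u := by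
    intro q u hu
    induction q using QuotientGroup.induction_on with
    | H s =>
      change R (s : Γ) (P (R (s : Γ)⁻¹ u)) = u
      rw [hP' _ (hU _ (Δ.inv_mem s.2) _ hu)]
      exact LinearMap.congr_fun (hinv (s : Γ)) u
  have hSU : ∀ x, S x ∈ U := by
    intro x
    simp only [S, LinearMap.sum_apply]
    exact U.sum_mem fun q _ => hFU q x
  have hSU' : ∀ u ∈ U, S u = (Fintype.card (Δ ⧸ Δ'.subgroupOf Δ) : k) • u := by
    intro u hu
    simp only [S, LinearMap.sum_apply]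
    rw [Finset.sum_congr rfl fun q _ => hFU' q u hu, Finset.sum_const, Finset.card_univ,
      Nat.cast_smul_eq_nsmul]
  have hn : (Fintype.card (Δ ⧸ Δ'.subgroupOf Δ) : k) ≠ 0 :=
    Nat.cast_ne_zero.2 Fintype.card_ne_zero
  refine ⟨LinearMap.ker S, ?_, ?_⟩
  · intro s hs u hu
    rw [LinearMap.mem_ker] at hu ⊢
    have h1 := LinearMap.congr_fun (hS s hs) u
    rw [Module.End.mul_apply, Module.End.mul_apply, hu, map_zero] at h1
    exact h1.symm
  · refine ⟨?_, ?_⟩
    · rw [Submodule.disjoint_def]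
      intro x hx hx'
      rw [LinearMap.mem_ker, hSU' x hx] at hx'
      exact (smul_eq_zero.1 hx').resolve_left hn
    · rw [codisjoint_iff, eq_top_iff]
      intro x _
      rw [Submodule.mem_sup]
      refine ⟨(Fintype.card (Δ ⧸ Δ'.subgroupOf Δ) : k)⁻¹ • S x, U.smul_mem _ (hSU x),
        x - (Fintype.card (Δ ⧸ Δ'.subgroupOf Δ) : k)⁻¹ • S x, ?_, add_sub_cancel _ _⟩
      rw [LinearMap.mem_ker, map_sub, map_smul, hSU' _ (hSU x), smul_smul, inv_mul_cancel₀ hn,
        one_smul, sub_self]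

end avg

/-- CONCL -/
theorem concl : S_CONCL := by
  intro k _ _ ι _ _ V _ _ _ Γ _ ρ G hG hLT Δ hΔ U hU
  have hGU : StableUnder G U := fun X hX x hx => (hLT X hX).1 U ⟨Δ, hΔ, hU⟩ x hx
  obtain ⟨U', hGU', hcompl⟩ := hG.semisimple U hGU
  let P : End k (∀ i, V i) := U.subtype ∘ₗ Submodule.projectionOnto U U' hcompl
  have hP : ∀ x, P x ∈ U := fun x => (Submodule.projectionOnto U U' hcompl x).2
  have hP' : ∀ u ∈ U, P u = u := by
    intro u hu
    change ((Submodule.projectionOnto U U' hcompl u : U) : ∀ i, V i) = u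
    rw [Submodule.projectionOnto_apply_left hcompl ⟨u, hu⟩]
  have hP0 : ∀ u ∈ U', P u = 0 := by
    intro u hu
    change ((Submodule.projectionOnto U U' hcompl u : U) : ∀ i, V i) = 0
    rw [Submodule.projectionOnto_apply_right hcompl ⟨u, hu⟩]
    rfl
  have hPX : ∀ X ∈ G, ∀ x, P (X x) = X (P x) := by
    intro X hX x
    have hx : x ∈ U ⊔ U' := by
      rw [hcompl.sup_eq_top]
      exact Submodule.mem_top
    obtain ⟨u, hu, u', hu', rfl⟩ := Submodule.mem_sup.1 hx
    rw [map_add, map_add, map_add, hP' u hu, hP0 u' hu', hP' _ (hGU X hX u hu),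
      hP0 _ (hGU' X hX u' hu'), add_zero, add_zero]
  -- the tensor
  let ω : ((∀ i, V i) × Dual k (∀ i, V i)) →ₗ[k] ((∀ i, V i) × Dual k (∀ i, V i)) →ₗ[k] k :=
    LinearMap.mk₂ k (fun a b => b.2 (P a.1))
      (fun a a' b => by rw [Prod.fst_add, map_add, map_add])
      (fun c a b => by rw [Prod.smul_fst, map_smul, map_smul])
      (fun a b b' => by rw [Prod.snd_add, LinearMap.add_apply])
      (fun c a b => by rw [Prod.smul_snd, LinearMap.smul_apply])
  let φ : Tensor k (∀ i, V i) 2 := Pool.Agent.H204R3.SP.bil2 ω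
  have hφ : ∀ v, φ v = (v 1).2 (P (v 0).1) := fun v => rfl
  obtain ⟨Δ', hΔ', hfix⟩ := hG.tate 2 φ (by
    intro X hX v
    rw [Fin.sum_univ_two, hφ, hφ, Function.update_self, Function.update_self,
      Function.update_of_ne Fin.zero_ne_one.symm, Function.update_of_ne Fin.zero_ne_one]
    change (v 1).2 (P (X (v 0).1)) + -((v 1).2 (X (P (v 0).1))) = 0
    rw [hPX X hX]
    ring)
  have hc : ∀ s ∈ Δ', P * sumRep ρ s = sumRep ρ s * P := by
    intro s hs
    refine LinearMap.ext fun x => ?_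
    have h1 : sumRep ρ s⁻¹ (P (sumRep ρ s x)) = P x := by
      rw [← sub_eq_zero, ← Module.forall_dual_apply_eq_zero_iff k]
      intro ξ
      have h2 := hfix s hs ![(x, 0), (0, ξ)]
      rw [hφ, hφ] at h2
      change ξ (sumRep ρ s⁻¹ (P (sumRep ρ s x))) = ξ (P x) at h2
      rw [map_sub, h2, sub_self]
    rw [Module.End.mul_apply, Module.End.mul_apply, ← h1]
    rw [← Module.End.mul_apply (sumRep ρ s), ← map_mul, mul_inv_cancel, map_one]
    rfl
  exact exists_compl_of_commute (sumRep ρ) Δ Δ' hΔ' U hU P hP hP' hc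

end Pool.Agent.Y41.RM
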