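import Mathlib
import Pool.Agent.Y114.RM.Stm2

/-!
# Regular monodromy: the logarithm of a unipotent endomorphism (LOG1 - LOG4)
-/

set_option autoImplicit false

namespace Pool.Agent.Y41.RM

open Module Polynomial Pool.Agent.Y114.MU Pool.Agent.Y114.RM

section coeff

variable {k : Type*} [Field k] [CharZero k] {E : Type*} [AddCommGroup E] [Module k E]

/-- Comparison of coefficients modulo a subspace. -/
theorem coeff_mem (W : Submodule k E) (a : ℕ → E) (D M : ℕ) (hM : 0 < M)
    (h : ∀ t : ℕ, ∑ i ∈ Finset.range D, (((M * t : ℕ) : k) ^ i) • a i ∈ W) :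
    ∀ i < D, a i ∈ W := by
  intro i hi
  rw [← Submodule.Quotient.mk_eq_zero, ← Module.forall_dual_apply_eq_zero_iff k]
  intro f
  let G : k[X] := ∑ i ∈ Finset.range D, C (f (Submodule.Quotient.mk (p := W) (a i))) * X ^ i
  have hG : G = 0 := by
    refine Polynomial.eq_zero_of_infinite_isRoot G ?_
    refine Set.infinite_of_injective_forall_mem (f := fun t : ℕ => ((M * t : ℕ) : k)) ?_ ?_
    · intro a b hab
      have h1 : M * a = M * b := Nat.cast_injective hab
      exact Nat.eq_of_mul_eq_mul_left hM h1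
    · intro t
      change G.IsRoot _
      rw [IsRoot.def]
      simp only [G, eval_finsetSum, eval_mul, eval_C, eval_pow, eval_X]
      have h2 := congrArg f ((Submodule.Quotient.mk_eq_zero W).2 (h t))
      rw [map_zero] at h2
      rw [← Submodule.mkQ_apply, map_sum, map_sum] at h2
      rw [← h2]
      refine Finset.sum_congr rfl fun j _ => ?_
      rw [map_smul, map_smul, smul_eq_mul, mul_comm]
      rfl
  have h1 := congrArg (fun p : k[X] => p.coeff i) hG
  simp only [G, finsetSum_coeff, coeff_C_mul, coeff_X_pow, coeff_zero, mul_ite, mul_one,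
    mul_zero] at h1
  rw [Finset.sum_ite_eq, if_pos (Finset.mem_range.2 hi)] at h1
  exact h1

theorem coeff_eq_zero (a : ℕ → E) (D : ℕ)
    (h : ∀ t : ℕ, ∑ i ∈ Finset.range D, (((t : ℕ) : k) ^ i) • a i = 0) :
    ∀ i < D, a i = 0 := by
  intro i hi
  have := coeff_mem (k := k) (⊥ : Submodule k E) a D 1 one_pos
    (fun t => by rw [one_mul, h t]; exact Submodule.zero_mem _) i hi
  exact (Submodule.mem_bot k).1 this

end coeff

variable {k : Type*} [Field k] [CharZero k] {V : Type*} [AddCommGroup V] [Module k V]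

theorem lgA_ge {d : ℕ} (ν : End k V) {i : ℕ} (hi : d ≤ i) : lgA d ν i = 0 := by
  unfold lgA
  refine Finset.sum_eq_zero fun j hj => ?_
  rw [Polynomial.coeff_eq_zero_of_natDegree_lt, zero_smul]
  exact lt_of_le_of_lt (bp_natDegree k j) (lt_of_lt_of_le (Finset.mem_range.1 hj) hi)

/-- The recursion `(i + 1) A (i + 1) = A i * A 1`. -/
theorem lgA_succ {d : ℕ} {ν : End k V} (hν : ν ^ d = 0) (hd : 2 ≤ d) (i : ℕ) :
    ((i : k) + 1) • lgA d ν (i + 1) = lgA d ν i * lgA d ν 1 := by
  rcases lt_or_ge i d with hi | hi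
  swap
  · rw [lgA_ge ν (by omega), lgA_ge ν hi, smul_zero, zero_mul]
  rw [← sub_eq_zero, ← Module.forall_dual_apply_eq_zero_iff k]
  intro f
  -- the polynomial `f (P (X))`
  let p : k[X] := ∑ j ∈ Finset.range d, C (f (lgA d ν j)) * X ^ j
  have hp : ∀ m : ℕ, p.eval (m : k) = f ((1 + ν) ^ m) := by
    intro m
    rw [lgA_pow hν m, map_sum]
    simp only [p, eval_finsetSum, eval_mul, eval_C, eval_pow, eval_X]
    refine Finset.sum_congr rfl fun j _ => ?_
    rw [map_smul, smul_eq_mul, mul_comm]
  have hq : ∀ m : ℕ, p.comp (X + C (m : k)) =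
      ∑ j ∈ Finset.range d, C (f ((1 + ν) ^ m * lgA d ν j)) * X ^ j := by
    intro m
    rw [← sub_eq_zero]
    refine Polynomial.eq_zero_of_infinite_isRoot _ ?_
    refine Set.infinite_of_injective_forall_mem (f := fun t : ℕ => (t : k)) Nat.cast_injective ?_
    intro t
    change IsRoot _ _
    rw [IsRoot.def, eval_sub, eval_comp, eval_add, eval_X, eval_C, sub_eq_zero]
    rw [← Nat.cast_add, hp, add_comm t m, pow_add]
    conv_lhs => rw [lgA_pow hν t, Finset.mul_sum, map_sum]
    simp only [eval_finsetSum, eval_mul, eval_C, eval_pow, eval_X]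
    refine Finset.sum_congr rfl fun j _ => ?_
    rw [mul_smul_comm, map_smul, smul_eq_mul, mul_comm]
  have hd1 : ∀ m : ℕ, (derivative p).eval (m : k) = f ((1 + ν) ^ m * lgA d ν 1) := by
    intro m
    have h1 := congrArg (fun r : k[X] => (derivative r).eval 0) (hq m)
    simp only [derivative_comp, derivative_add, derivative_X, derivative_C, add_zero,
      one_mul, eval_comp, eval_add, eval_X, eval_C, zero_add] at h1
    rw [h1, ← coeff_zero_eq_eval_zero, coeff_derivative]
    simp only [finsetSum_coeff, coeff_C_mul, coeff_X_pow, mul_ite, mul_one, mul_zero, zero_add,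
      Nat.cast_zero]
    rw [Finset.sum_ite_eq, if_pos (Finset.mem_range.2 (by omega))]
  have h3 : derivative p = ∑ j ∈ Finset.range d, C (f (lgA d ν j * lgA d ν 1)) * X ^ j := by
    rw [← sub_eq_zero]
    refine Polynomial.eq_zero_of_infinite_isRoot _ ?_
    refine Set.infinite_of_injective_forall_mem (f := fun t : ℕ => (t : k)) Nat.cast_injective ?_
    intro t
    change IsRoot _ _
    rw [IsRoot.def, eval_sub, sub_eq_zero, hd1]
    conv_lhs => rw [lgA_pow hν t, Finset.sum_mul, map_sum]
    simp only [eval_finsetSum, eval_mul, eval_C, eval_pow, eval_X]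
    refine Finset.sum_congr rfl fun j _ => ?_
    rw [smul_mul_assoc, map_smul, smul_eq_mul, mul_comm]
  have h4 := congrArg (fun r : k[X] => r.coeff i) h3
  simp only [coeff_derivative, p, finsetSum_coeff, coeff_C_mul, coeff_X_pow, mul_ite, mul_one,
    mul_zero] at h4
  rw [Finset.sum_ite_eq, Finset.sum_ite_eq, if_pos (Finset.mem_range.2 hi)] at h4
  rw [map_sub, map_smul, smul_eq_mul, ← h4]
  by_cases h5 : i + 1 < d
  · rw [if_pos (Finset.mem_range.2 h5)]
    ring
  · rw [if_neg (fun h => h5 (Finset.mem_range.1 h)), lgA_ge ν (by omega), map_zero]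
    ring

/-- LOG1 -/
theorem log1 : S_LOG1 := by
  intro k _ _ V _ _ ν d hd hν
  have hA : ∀ i, lgA d ν i ∈ Algebra.adjoin k {lgA d ν 1} := by
    intro i
    induction i with
    | zero =>
      rw [lgA_zero (by omega)]
      exact Subalgebra.one_mem _
    | succ i ih =>
      have h1 := lgA_succ hν hd i
      have h2 : ((i : k) + 1) ≠ 0 := Nat.cast_add_one_ne_zero i
      have h3 : lgA d ν (i + 1) = ((i : k) + 1)⁻¹ • (lgA d ν i * lgA d ν 1) := by
        rw [← h1, smul_smul, inv_mul_cancel₀ h2, one_smul]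
      rw [h3]
      exact Subalgebra.smul_mem _ (Subalgebra.mul_mem _ ih
        (Algebra.subset_adjoin (Set.mem_singleton _))) _
  refine ⟨hA, fun X hX => ?_⟩
  have h1 : ∀ i, Commute X (lgA d ν i) := by
    intro i
    have h2 : lgA d ν i ∈ Subalgebra.centralizer k {X} := by
      have h3 : Algebra.adjoin k {lgA d ν 1} ≤ Subalgebra.centralizer k {X} := by
        rw [Algebra.adjoin_le_iff, Set.singleton_subset_iff]
        change _ ∈ Subalgebra.centralizer k {X}
        rw [Subalgebra.mem_centralizer_iff]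
        intro g hg
        rw [Set.mem_singleton_iff] at hg
        rw [hg, hX]
      exact h3 (hA i)
    rw [Subalgebra.mem_centralizer_iff] at h2
    exact h2 X (Set.mem_singleton _)
  have h2 : Commute X (1 + ν) := by
    have h3 := lgA_pow hν 1
    rw [pow_one] at h3
    rw [h3]
    exact Commute.sum_right _ _ _ fun i _ => (h1 i).smul_right _
  have h3 : Commute X (1 + ν - 1) := h2.sub_right (Commute.one_right X)
  rw [add_sub_cancel_left] at h3
  exact h3

/-- LOG2 -/
theorem log2 : S_LOG2 := by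
  intro k _ _ V _ _ ν g g' d q hd hν h1 h2 h
  have hpow : ∀ m : ℕ, g * (1 + ν) ^ m * g' = (1 + ν) ^ (q * m) := by
    intro m
    induction m with
    | zero => rw [pow_zero, mul_one, h1, mul_zero, pow_zero]
    | succ m ih =>
      rw [pow_succ, Nat.mul_succ, pow_add, ← ih, ← h]
      have : g * (1 + ν) ^ m * g' * (g * (1 + ν) * g') =
          g * (1 + ν) ^ m * (g' * g) * (1 + ν) * g' := by noncomm_ring
      rw [this, h2, mul_one, mul_assoc g ((1 + ν) ^ m) (1 + ν)]
  have h3 := coeff_eq_zero (k := k) (fun i => g * lgA d ν i * g' - ((q : k) ^ i) • lgA d ν i) d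
    (by
      intro t
      simp only [smul_sub, Finset.sum_sub_distrib]
      rw [sub_eq_zero]
      have h4 := hpow t
      rw [lgA_pow hν t, lgA_pow hν (q * t), Finset.mul_sum, Finset.sum_mul] at h4
      simp only [mul_smul_comm, smul_mul_assoc] at h4
      rw [h4]
      refine Finset.sum_congr rfl fun i _ => ?_
      rw [smul_smul, Nat.cast_mul, mul_pow, mul_comm]) 1 (by omega)
  rw [pow_one, sub_eq_zero, Nat.cast_smul_eq_nsmul] at h3
  exact h3

/-- LOG3 -/
theorem log3 : S_LOG3 := by
  intro k _ _ V _ _ ν d M hd hν hM W hW x hx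
  refine coeff_mem (k := k) W (fun i => lgA d ν i x) d M hM ?_ 1 (by omega)
  intro t
  have h1 : ((1 + ν) ^ (M * t)) x ∈ W := by
    induction t with
    | zero => rw [mul_zero, pow_zero]; exact hx
    | succ t ih =>
      rw [Nat.mul_succ, add_comm (M * t) M, pow_add, Module.End.mul_apply]
      exact hW _ ih
  rw [lgA_pow hν (M * t), LinearMap.sum_apply] at h1
  exact h1

/-- LOG4 -/
theorem log4 : S_LOG4 := by
  intro k _ _ V _ _ ν ν' d hd hν hν' h
  have hu : IsUnit (1 + ν) := by
    rw [add_comm]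
    exact IsNilpotent.isUnit_add_one ⟨d, hν⟩
  have h' : (1 + ν') * (1 + ν) = 1 := by
    obtain ⟨u, hu⟩ := hu
    rw [← hu] at h ⊢
    have : (1 + ν') = (↑u⁻¹ : End k V) := by
      calc (1 + ν') = ((↑u⁻¹ : End k V) * ↑u) * (1 + ν') := by rw [u.inv_mul, one_mul]
        _ = ↑u⁻¹ := by rw [mul_assoc, h, mul_one]
    rw [this, u.inv_mul]
  have hc : Commute (1 + ν) (1 + ν') := h.trans h'.symm
  have hpow : ∀ m : ℕ, (1 + ν) ^ m * (1 + ν') ^ m = 1 := by
    intro m
    rw [← hc.mul_pow, h, one_pow]
  rw [eq_neg_iff_add_eq_zero, ← Module.forall_dual_apply_eq_zero_iff k]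
  intro f
  let G : k[X] := (∑ i ∈ Finset.range d, ∑ j ∈ Finset.range d,
    C (f (lgA d ν i * lgA d ν' j)) * X ^ (i + j)) - C (f 1)
  have hG : G = 0 := by
    refine Polynomial.eq_zero_of_infinite_isRoot G ?_
    refine Set.infinite_of_injective_forall_mem (f := fun t : ℕ => (t : k)) Nat.cast_injective ?_
    intro t
    change G.IsRoot _
    rw [IsRoot.def]
    simp only [G, eval_sub, eval_finsetSum, eval_mul, eval_C, eval_pow, eval_X]
    rw [sub_eq_zero, ← hpow t, lgA_pow hν t, lgA_pow hν' t, Finset.sum_mul, map_sum]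
    refine Finset.sum_congr rfl fun i _ => ?_
    rw [Finset.mul_sum, map_sum]
    refine Finset.sum_congr rfl fun j _ => ?_
    rw [smul_mul_smul_comm, map_smul, smul_eq_mul, mul_comm, pow_add]
  have h1 := congrArg (fun p : k[X] => p.coeff 1) hG
  simp only [G, coeff_sub, finsetSum_coeff, coeff_C_mul, coeff_X_pow, coeff_zero, coeff_C,
    one_ne_zero, if_false, sub_zero, mul_ite, mul_one, mul_zero] at h1
  obtain ⟨e, rfl⟩ := Nat.exists_eq_add_of_le hd
  rw [add_comm 2 e] at h1 ⊢
  rw [Finset.sum_range_succ', Finset.sum_range_succ'] at h1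
  have hz : ∑ i ∈ Finset.range e, ∑ j ∈ Finset.range (e + 2),
      (if 1 = i + 1 + 1 + j then f (lgA (e + 2) ν (i + 1 + 1) * lgA (e + 2) ν' j) else 0) = 0 := by
    refine Finset.sum_eq_zero fun i _ => Finset.sum_eq_zero fun j _ => ?_
    rw [if_neg (by omega)]
  rw [hz, zero_add, Finset.sum_eq_single 0, Finset.sum_eq_single 1] at h1
  · rw [if_pos (by norm_num), if_pos (by norm_num), lgA_zero (by omega), lgA_zero (by omega)] at h1
    simp only [zero_add, mul_one, one_mul] at h1
    rw [map_add, add_comm]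
    exact h1
  · intro j _ hj
    rw [if_neg (by omega)]
  · intro hj
    exact absurd (Finset.mem_range.2 (by omega)) hj
  · intro j _ hj
    rw [if_neg (by omega)]
  · intro hj
    exact absurd (Finset.mem_range.2 (by omega)) hj

end Pool.Agent.Y41.RM
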